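import Pool.Agent.H66.FA.T

/-!
# Left-invariant Finsler metrics on almost abelian groups: row GAP
-/

set_option autoImplicit false

open Matrix

namespace Pool.Agent.H44.FAB

open Pool.Agent.H66.FA Pool.Agent.H63.Fins MeasureTheory Filter Topology

theorem pf_GAP (h1 : T_EUL) (h2 : T_REG) (h3 : T_CPT) (h4 : T_DEC) : T_GAP := by
  intro m B E L hL hE hA c σ₁ hc hσ
  have hLc : Continuous L := (h2 _ L hL).1
  have hd1 := (h2 _ L hL).2.1
  have hKS : IsCompact {y | L y = c} := (h3 _ L hL).2 c hc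
  set K : Set (V (m + 1)) := {v | L v = c} ∩ {v | v 0 = 0} with hK
  have hKc : IsCompact K := hKS.inter_right (isClosed_eq (continuous_apply 0) continuous_const)
  have hne : ∀ v, L v = c → v ≠ 0 := by
    rintro v hv rfl
    rw [hL.zero] at hv
    linarith
  have hkap : ∃ κ : ℝ, κ < c ∧ ∀ v ∈ K, L (E (-σ₁) v) ≤ κ := by
    rcases K.eq_empty_or_nonempty with h | h
    · exact ⟨c - 1, by linarith, by simp [h]⟩
    · obtain ⟨v₀, hv₀, hmax⟩ := hKc.exists_isMaxOn h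
        ((hLc.comp (E (-σ₁)).continuous).continuousOn)
      refine ⟨L (E (-σ₁) v₀), ?_, fun v hv => hmax hv⟩
      have h5 := h4 m B E L hL hE hA v₀ (hne v₀ hv₀.1) hv₀.2 (-σ₁) 0 (by linarith)
      rw [hE.zero, hv₀.1] at h5
      exact h5
  obtain ⟨κ, hκ, hκK⟩ := hkap
  have hκσ : ∀ v : V (m + 1), v 0 = 0 → L v = c → ∀ σ, σ₁ ≤ σ → L (E (-σ) v) ≤ κ := by
    intro v hv0 hvc σ hσ'
    refine le_trans ?_ (hκK v ⟨hvc, hv0⟩)
    rcases hσ'.eq_or_lt with h | h
    · rw [h]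
    · exact (h4 m B E L hL hE hA v (hne v hvc) hv0 (-σ) (-σ₁) (by linarith)).le
  by_contra hcon
  push Not at hcon
  have hseq : ∀ k : ℕ, ∃ y : V (m + 1), L y = c ∧ 0 ≤ y 0 ∧ y 0 < 1 / ((k : ℝ) + 1) ∧
      ∀ v : V (m + 1), v 0 = 0 → L v = c → d1 L y v ≤ c + κ := by
    intro k
    exact hcon κ (1 / ((k : ℝ) + 1)) hκ (by positivity) hκσ
  choose y hyc hy0 hyk hyv using hseq
  obtain ⟨z, hz, φ, hφ, hlim⟩ := hKS.tendsto_subseq (x := y) (fun k => hyc k)
  have hz0 : z 0 = 0 := by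
    have h5 : Tendsto (fun k => y (φ k) 0) atTop (𝓝 (z 0)) :=
      ((continuous_apply (0 : Fin (m + 1))).tendsto z).comp hlim
    have h6 : Tendsto (fun k => y (φ k) 0) atTop (𝓝 0) := by
      refine squeeze_zero (fun k => hy0 _) (fun k => (hyk _).le) ?_
      exact tendsto_one_div_add_atTop_nhds_zero_nat.comp hφ.tendsto_atTop
    exact tendsto_nhds_unique h5 h6
  have hzne : z ≠ 0 := hne z hz
  have hopen : IsOpen {p : V (m + 1) × V (m + 1) | p.1 ≠ 0} := isOpen_ne.preimage continuous_fst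
  have hcont : ContinuousAt (fun p : V (m + 1) × V (m + 1) => d1 L p.1 p.2) (z, z) :=
    hd1.continuousAt (hopen.mem_nhds hzne)
  have hl : Tendsto (fun k => d1 L (y (φ k)) z) atTop (𝓝 (d1 L z z)) :=
    hcont.tendsto.comp (hlim.prodMk_nhds tendsto_const_nhds)
  have hle : d1 L z z ≤ c + κ := le_of_tendsto' hl fun k => hyv _ z hz0 hz
  rw [(h1 _ L hL z hzne).1, hz] at hle
  linarith

end Pool.Agent.H44.FAB
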